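import Pool.Agent.H754R3.Rains

/-!
# A non-chiral EHI with `L_{h,min} < 0` and `Tr R < 0`

Gauge group `SU(2)`, two copies of `Sym³ ℂ²` with R-charge `3/2` and four copies of the adjoint
representation with R-charge `1/8`: `L_{h,min} = L_h(1/2) = -1/2` and `Tr R = -7/2`.
-/

namespace Pool.Agent.Results.MP_321bb7_mp.NegativeTrR

open Pool.Agent.H754R3.Rains

/-- There is a non-chiral EHI datum with gauge group `SU(2)`, without gauge singlets, whose Rains
function attains its minimum `-1/2 < 0` and for which `Tr R = -7/2`. -/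
theorem result :
    ∃ D : Datum, D.NonChiral ∧ D.NoSinglets ∧
      (∃ x₀ : ℝ, D.rains x₀ = -1 / 2 ∧ ∀ x : ℝ, D.rains x₀ ≤ D.rains x) ∧
      D.trR = -7 / 2 :=
  ⟨datum, nonChiral_datum, noSinglets_datum,
    ⟨1 / 2, rains_half, fun x => by rw [rains_half]; exact rains_ge x⟩, trR_datum⟩

end Pool.Agent.Results.MP_321bb7_mp.NegativeTrR
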